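import Mathlib.Data.Finset.Card
import Mathlib.Data.Finset.Sort
import Mathlib.Data.Fintype.Prod
import Mathlib.Data.Fintype.BigOperators
import Mathlib.Data.Prod.Lex
import Mathlib.Data.Fin.VecNotation
import Mathlib.Algebra.BigOperators.Fin
import Mathlib.Algebra.BigOperators.Ring.Finset
import Mathlib.Tactic.Ring
import Mathlib.Tactic.Linarith
import Mathlib.Tactic.Positivity

/-!
# Configurations of pseudolines with many crossings at one level

`W` = pseudolines, `T` = times, `y t i` = height of the pseudoline `i` at the time `t`. A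
pseudoline of larger slope passes a pseudoline of smaller slope once, from below to above;
pseudolines of equal slope never meet. At the times in `E` exactly two pseudolines `lo t`, `up t`
meet, and exactly `K` pseudolines are strictly below them.
-/

namespace Pool.Agent.PLevel

structure Cfg : Type 1 where
  W : Type
  T : Type
  A : Type
  [fW : Fintype W]
  [dW : DecidableEq W]
  [oT : LinearOrder T]
  [oA : LinearOrder A]
  y : T → W → A
  sl : W → ℕ
  E : Finset T
  lo : T → W
  up : T → W
  K : ℕ
  V : ℕ
  H : ℕ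
  c : ℕ
  t0 : T
  t1 : T
  ht0 : ∀ t, t0 ≤ t
  ht1 : ∀ t, t ≤ t1
  h0E : t0 ∉ E
  h1E : t1 ∉ E
  slH : ∀ i, sl i < H
  cH : c < H
  avg : ∑ i, sl i = c * Fintype.card W
  cross : ∀ i j, sl i < sl j → ∀ t t', t < t' → y t i ≤ y t j → y t' i < y t' j
  par : ∀ i j, i ≠ j → sl i = sl j → ∀ t t', y t i < y t j → y t' i < y t' j
  parne : ∀ i j, i ≠ j → sl i = sl j → ∀ t, y t i ≠ y t j
  tie : ∀ t i j, i ≠ j → y t i = y t j →
    t ∈ E ∧ ((i = lo t ∧ j = up t) ∨ (i = up t ∧ j = lo t))
  evy : ∀ t ∈ E, y t (lo t) = y t (up t)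
  evs : ∀ t ∈ E, sl (lo t) < sl (up t)
  evK : ∀ t ∈ E, (Finset.univ.filter (fun i => y t i < y t (lo t))).card = K
  vis : ∀ w, (E.filter (fun t => lo t = w)).card ≤ V

attribute [instance] Cfg.fW Cfg.dW Cfg.oT Cfg.oA

namespace Cfg

theorem lo_ne_up (G : Cfg) {t : G.T} (ht : t ∈ G.E) : G.lo t ≠ G.up t := by
  intro h
  have := G.evs t ht
  rw [h] at this
  exact lt_irrefl _ this

/-! ### The product -/

section product

variable (G R : Cfg) (La : ℕ)

/-- margin -/
def off : ℕ := R.H * G.V

/-- number of rows of a bundle -/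
def LL : ℕ := La + 2 * off G R

/-- column of the line `x` at the time `t` -/
def col (x : G.W) (t : G.T) : ℕ := (G.E.filter (fun t' => t' < t ∧ G.lo t' = x)).card

theorem col_le (x : G.W) (t : G.T) : col G x t ≤ G.V := by
  refine le_trans (Finset.card_le_card ?_) (G.vis x)
  intro s hs
  rw [Finset.mem_filter] at hs ⊢
  exact ⟨hs.1, hs.2.2⟩

theorem col_mono (x : G.W) {t t' : G.T} (h : t ≤ t') : col G x t ≤ col G x t' := by
  refine Finset.card_le_card ?_
  intro s hs
  rw [Finset.mem_filter] at hs ⊢
  exact ⟨hs.1, lt_of_lt_of_le hs.2.1 h, hs.2.2⟩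

theorem col_lt {t t' : G.T} (h : t < t') (ht : t ∈ G.E) :
    col G (G.lo t) t < col G (G.lo t) t' := by
  refine Finset.card_lt_card ?_
  rw [Finset.ssubset_iff_of_subset]
  · refine ⟨t, ?_, ?_⟩
    · rw [Finset.mem_filter]
      exact ⟨ht, h, rfl⟩
    · rw [Finset.mem_filter]
      intro h2
      exact lt_irrefl _ h2.2.1
  · intro s hs
    rw [Finset.mem_filter] at hs ⊢
    exact ⟨hs.1, lt_trans hs.2.1 h, hs.2.2⟩

/-- inner wires of a bundle -/
abbrev BW : Type := R.W × Fin (LL G R La)

/-- value of an inner wire -/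
def val (x : G.W) (t : G.T) (i : BW G R La) : ℤ :=
  (i.2.1 : ℤ) + ((R.sl i.1 : ℤ) - R.c) * (col G x t : ℤ)

theorem drift_bound (x : G.W) (t : G.T) (l : R.W) :
    -(off G R : ℤ) ≤ ((R.sl l : ℤ) - R.c) * (col G x t : ℤ) ∧
      ((R.sl l : ℤ) - R.c) * (col G x t : ℤ) ≤ off G R := by
  have h1 : (col G x t : ℤ) ≤ G.V := by exact_mod_cast col_le G x t
  have h2 : (0 : ℤ) ≤ col G x t := by positivity
  have h3 : (R.sl l : ℤ) ≤ R.H := by exact_mod_cast (R.slH l).le
  have h4 : (R.c : ℤ) ≤ R.H := by exact_mod_cast R.cH.le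
  have h5 : (0 : ℤ) ≤ R.sl l := by positivity
  have h6 : (0 : ℤ) ≤ R.c := by positivity
  have h7 : (off G R : ℤ) = (R.H : ℤ) * G.V := by
    unfold off
    push_cast
    ring
  have h8 : (0 : ℤ) ≤ R.H := by positivity
  rw [h7]
  constructor
  · nlinarith [mul_le_mul h4 h1 h2 h8, mul_nonneg h5 h2]
  · nlinarith [mul_le_mul h3 h1 h2 h8, mul_nonneg h6 h2]

theorem val_lower (x : G.W) (t : G.T) (i : BW G R La) : -(off G R : ℤ) ≤ val G R La x t i := by
  have h := (drift_bound G R x t i.1).1
  have h2 : (0 : ℤ) ≤ (i.2.1 : ℤ) := by positivity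
  unfold val
  linarith

/-- the value of the row number `a` -/
def row (a : Fin La) : ℕ := a.1 + off G R

/-- state of the copy of `R` in which the wire takes part -/
def sg (x : G.W) (t : G.T) (a : Fin La) (s : R.T) (v : ℤ) : R.T :=
  if t ∈ G.E ∧ x = G.lo t then
    if v < row G R La a then R.t1 else if v = row G R La a then s else R.t0
  else R.t0

/-- key of a wire inside its bundle -/
def key (x : G.W) (t : G.T) (a : Fin La) (s : R.T) (i : BW G R La) : ℤ ×ₗ R.A :=
  toLex (val G R La x t i, R.y (sg G R La x t a s (val G R La x t i)) i.1)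

/-- key outside of events -/
def own (x : G.W) (t : G.T) (i : BW G R La) : ℤ ×ₗ R.A :=
  toLex (val G R La x t i, R.y R.t0 i.1)

/-- number of wires of the bundle above the wire -/
def rk (x : G.W) (t : G.T) (i : BW G R La) : ℕ :=
  (Finset.univ.filter (fun j => own G R La x t i < own G R La x t j)).card

/-- first inner coordinate -/
def pp (x : G.W) (t : G.T) (a : Fin La) (i : BW G R La) : ℤ :=
  if t ∈ G.E then
    if x = G.lo t then 2 * val G R La x t i
    else if x = G.up t then
      if rk G R La x t i < Fintype.card R.W * row G R La a then 2 * row G R La a + 1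
      else -(2 * off G R + 1)
    else 0
  else 0

/-- wires of the product -/
abbrev PW : Type := G.W × BW G R La

/-- times of the product -/
abbrev PT : Type := G.T ×ₗ (Fin La ×ₗ R.T)

/-- heights of the product -/
abbrev PA : Type := G.A ×ₗ (ℤ ×ₗ (ℤ ×ₗ R.A))

/-- height, for separate arguments -/
def ht (t : G.T) (a : Fin La) (s : R.T) (x : G.W) (i : BW G R La) : PA G R :=
  toLex (G.y t x, toLex (pp G R La x t a i, key G R La x t a s i))

variable {G R La}

theorem own_inj {x : G.W} {t : G.T} {i j : BW G R La}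
    (h : own G R La x t i = own G R La x t j) : i = j := by
  unfold own at h
  have h1 := congrArg (fun z => (ofLex z).1) h
  have h2 := congrArg (fun z => (ofLex z).2) h
  simp only [ofLex_toLex] at h1 h2
  have h3 : i.1 = j.1 := by
    by_contra hne
    exact R.h0E (R.tie R.t0 i.1 j.1 hne h2).1
  have h4 : i.2 = j.2 := by
    unfold val at h1
    rw [h3] at h1
    apply Fin.ext
    have : (i.2.1 : ℤ) = j.2.1 := by linarith
    exact_mod_cast this
  exact Prod.ext h3 h4

theorem rk_lt {x : G.W} {t : G.T} {i j : BW G R La}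
    (h : own G R La x t i < own G R La x t j) : rk G R La x t j < rk G R La x t i := by
  refine Finset.card_lt_card ?_
  rw [Finset.ssubset_iff_of_subset]
  · refine ⟨j, ?_, ?_⟩
    · rw [Finset.mem_filter]
      exact ⟨Finset.mem_univ _, h⟩
    · rw [Finset.mem_filter]
      intro h2
      exact lt_irrefl _ h2.2
  · intro s hs
    rw [Finset.mem_filter] at hs ⊢
    exact ⟨hs.1, lt_trans h hs.2⟩

theorem key_eq_own {x : G.W} {t : G.T} (h : ¬ (t ∈ G.E ∧ x = G.lo t)) (a : Fin La) (s : R.T)
    (i : BW G R La) : key G R La x t a s i = own G R La x t i := by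
  unfold key own sg
  rw [if_neg h]

theorem lex_lt {α β : Type*} [Preorder α] [Preorder β] (a b : α) (c d : β) :
    (toLex (a, c) : α ×ₗ β) < toLex (b, d) ↔ a < b ∨ (a = b ∧ c < d) := by
  rw [Prod.Lex.toLex_lt_toLex]

theorem lex_le {α β : Type*} [Preorder α] [Preorder β] (a b : α) (c d : β) :
    (toLex (a, c) : α ×ₗ β) ≤ toLex (b, d) ↔ a < b ∨ (a = b ∧ c ≤ d) := by
  rw [Prod.Lex.toLex_le_toLex]

/-- the first inner coordinate is monotone in the key -/
theorem pp_mono {x : G.W} {t : G.T} {a : Fin La} {s : R.T} {i j : BW G R La}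
    (h : key G R La x t a s i ≤ key G R La x t a s j) :
    pp G R La x t a i ≤ pp G R La x t a j := by
  unfold pp
  by_cases hE : t ∈ G.E
  · rw [if_pos hE, if_pos hE]
    by_cases hu : x = G.lo t
    · rw [if_pos hu, if_pos hu]
      have : val G R La x t i ≤ val G R La x t j := by
        unfold key at h
        rw [lex_le] at h
        rcases h with h | h
        · exact h.le
        · exact h.1.le
      linarith
    · rw [if_neg hu, if_neg hu]
      by_cases hw : x = G.up t
      · rw [if_pos hw, if_pos hw]
        rw [key_eq_own (by tauto), key_eq_own (by tauto)] at h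
        rcases lt_or_eq_of_le h with h | h
        · have h1 := rk_lt h
          by_cases h2 : rk G R La x t i < Fintype.card R.W * row G R La a
          · rw [if_pos h2, if_pos (lt_trans h1 h2)]
          · rw [if_neg h2]
            split_ifs
            · have h3 : (0 : ℤ) ≤ (row G R La a : ℤ) := by positivity
              have h4 : (0 : ℤ) ≤ (off G R : ℤ) := by positivity
              linarith
            · exact le_rfl
        · rw [own_inj h]
      · rw [if_neg hw, if_neg hw]
  · rw [if_neg hE, if_neg hE]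

theorem ht_lt_same {t : G.T} {a : Fin La} {s : R.T} {x : G.W} {i j : BW G R La} :
    ht G R La t a s x i < ht G R La t a s x j ↔
      key G R La x t a s i < key G R La x t a s j := by
  unfold ht
  rw [lex_lt, lex_lt]
  constructor
  · rintro (h | ⟨_, h | h⟩)
    · exact absurd h (lt_irrefl _)
    · by_contra h2
      exact absurd (pp_mono (not_lt.1 h2)) (not_le.2 h)
    · exact h.2
  · intro h
    refine Or.inr ⟨rfl, ?_⟩
    rcases lt_or_eq_of_le (pp_mono h.le) with h2 | h2
    · exact Or.inl h2
    · exact Or.inr ⟨h2, h⟩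

theorem ht_le_same {t : G.T} {a : Fin La} {s : R.T} {x : G.W} {i j : BW G R La} :
    ht G R La t a s x i ≤ ht G R La t a s x j ↔
      key G R La x t a s i ≤ key G R La x t a s j := by
  rw [← not_lt, ht_lt_same, not_lt]

theorem ht_lt_of {t : G.T} {a : Fin La} {s : R.T} {x x' : G.W} {i j : BW G R La}
    (h : G.y t x < G.y t x') : ht G R La t a s x i < ht G R La t a s x' j := by
  unfold ht
  rw [lex_lt]
  exact Or.inl h

theorem le_of_ht {t : G.T} {a : Fin La} {s : R.T} {x x' : G.W} {i j : BW G R La}
    (h : ht G R La t a s x i ≤ ht G R La t a s x' j) : G.y t x ≤ G.y t x' := by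
  unfold ht at h
  rw [lex_le] at h
  rcases h with h | h
  · exact h.le
  · exact h.1.le

/-- comparison of a wire of the lower bundle with a wire of the upper bundle at an event -/
theorem ht_event {t : G.T} (ht' : t ∈ G.E) {a : Fin La} {s : R.T} {i j : BW G R La} :
    (ht G R La t a s (G.lo t) i < ht G R La t a s (G.up t) j ↔
      rk G R La (G.up t) t j < Fintype.card R.W * row G R La a ∧
        val G R La (G.lo t) t i ≤ row G R La a) ∧
    (ht G R La t a s (G.lo t) i ≤ ht G R La t a s (G.up t) j ↔
      rk G R La (G.up t) t j < Fintype.card R.W * row G R La a ∧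
        val G R La (G.lo t) t i ≤ row G R La a) ∧
    ht G R La t a s (G.lo t) i ≠ ht G R La t a s (G.up t) j := by
  have hy := G.evy t ht'
  have hne := G.lo_ne_up ht'
  have hv := val_lower G R La (G.lo t) t i
  have hp1 : pp G R La (G.lo t) t a i = 2 * val G R La (G.lo t) t i := by
    unfold pp
    rw [if_pos ht', if_pos rfl]
  have hp2 : pp G R La (G.up t) t a j =
      if rk G R La (G.up t) t j < Fintype.card R.W * row G R La a then
        2 * (row G R La a : ℤ) + 1 else -(2 * (off G R : ℤ) + 1) := by
    unfold pp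
    rw [if_pos ht', if_neg (Ne.symm hne), if_pos rfl]
  have hpne : pp G R La (G.lo t) t a i ≠ pp G R La (G.up t) t a j := by
    rw [hp1, hp2]
    split_ifs <;> omega
  have hlt : ht G R La t a s (G.lo t) i < ht G R La t a s (G.up t) j ↔
      rk G R La (G.up t) t j < Fintype.card R.W * row G R La a ∧
        val G R La (G.lo t) t i ≤ row G R La a := by
    unfold ht
    rw [lex_lt, lex_lt]
    constructor
    · rintro (h | ⟨_, h | h⟩)
      · rw [hy] at h
        exact absurd h (lt_irrefl _)
      · rw [hp1, hp2] at h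
        split_ifs at h with h2
        · exact ⟨h2, by omega⟩
        · exfalso
          omega
      · exact absurd h.1 hpne
    · rintro ⟨h1, h2⟩
      refine Or.inr ⟨hy, Or.inl ?_⟩
      rw [hp1, hp2, if_pos h1]
      omega
  have hne2 : ht G R La t a s (G.lo t) i ≠ ht G R La t a s (G.up t) j := by
    intro h
    unfold ht at h
    have h2 := congrArg (fun z => (ofLex (ofLex z).2).1) h
    simp only [ofLex_toLex] at h2
    exact hpne h2
  refine ⟨hlt, ?_, hne2⟩
  rw [le_iff_lt_or_eq]
  constructor
  · rintro (h | h)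
    · exact hlt.1 h
    · exact absurd h hne2
  · intro h
    exact Or.inl (hlt.2 h)

theorem sg_mono {x : G.W} {t : G.T} {a a' : Fin La} {s s' : R.T} {v : ℤ}
    (h : a < a' ∨ (a = a' ∧ s < s')) :
    sg G R La x t a s v ≤ sg G R La x t a' s' v := by
  unfold sg
  by_cases hE : t ∈ G.E ∧ x = G.lo t
  · rw [if_pos hE, if_pos hE]
    rcases h with h | ⟨rfl, h⟩
    · have h1 : row G R La a < row G R La a' := by
        unfold row
        have : a.1 < a'.1 := h
        omega
      by_cases h2 : v < row G R La a'
      · rw [if_pos h2]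
        exact R.ht1 _
      · rw [if_neg (by omega : ¬ v < row G R La a), if_neg (by omega : ¬ v = row G R La a)]
        exact R.ht0 _
    · split_ifs
      · exact le_rfl
      · exact h.le
      · exact le_rfl
  · rw [if_neg hE, if_neg hE]

theorem sg_E {x : G.W} {t : G.T} {a : Fin La} {s : R.T} {v : ℤ}
    (h : sg G R La x t a s v ∈ R.E) :
    t ∈ G.E ∧ x = G.lo t ∧ v = row G R La a ∧ sg G R La x t a s v = s := by
  unfold sg at h ⊢
  by_cases hE : t ∈ G.E ∧ x = G.lo t
  · rw [if_pos hE] at h ⊢
    split_ifs at h ⊢ with h1 h2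
    · exact absurd h R.h1E
    · exact ⟨hE.1, hE.2, h2, rfl⟩
    · exact absurd h R.h0E
  · rw [if_neg hE] at h
    exact absurd h R.h0E

/-- slope of a wire of the product -/
def psl (w : PW G R La) : ℕ := G.sl w.1 * R.H + R.sl w.2.1

theorem psl_lt {w w' : PW G R La} (h : psl w < psl w') :
    G.sl w.1 < G.sl w'.1 ∨ (G.sl w.1 = G.sl w'.1 ∧ R.sl w.2.1 < R.sl w'.2.1) := by
  unfold psl at h
  have h1 := R.slH w.2.1
  have h2 := R.slH w'.2.1
  rcases lt_trichotomy (G.sl w.1) (G.sl w'.1) with h3 | h3 | h3
  · exact Or.inl h3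
  · right
    rw [h3] at h
    exact ⟨h3, by omega⟩
  · exfalso
    have h4 : (G.sl w'.1 + 1) * R.H ≤ G.sl w.1 * R.H := Nat.mul_le_mul_right _ h3
    rw [add_mul, one_mul] at h4
    omega

theorem psl_eq {w w' : PW G R La} (h : psl w = psl w') :
    G.sl w.1 = G.sl w'.1 ∧ R.sl w.2.1 = R.sl w'.2.1 := by
  rcases lt_trichotomy (G.sl w.1) (G.sl w'.1) with h3 | h3 | h3
  · exfalso
    unfold psl at h
    have h1 := R.slH w.2.1
    have h4 : (G.sl w.1 + 1) * R.H ≤ G.sl w'.1 * R.H := Nat.mul_le_mul_right _ h3
    rw [add_mul, one_mul] at h4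
    omega
  · refine ⟨h3, ?_⟩
    unfold psl at h
    rw [h3] at h
    omega
  · exfalso
    unfold psl at h
    have h1 := R.slH w'.2.1
    have h4 : (G.sl w'.1 + 1) * R.H ≤ G.sl w.1 * R.H := Nat.mul_le_mul_right _ h3
    rw [add_mul, one_mul] at h4
    omega

theorem val_sub (x : G.W) (t : G.T) (i j : BW G R La) :
    val G R La x t j - val G R La x t i
      = ((j.2.1 : ℤ) - i.2.1) + ((R.sl j.1 : ℤ) - R.sl i.1) * (col G x t : ℤ) := by
  unfold val
  ring

/-- the crossing property inside a bundle -/
theorem key_cross {x : G.W} {i j : BW G R La} (hs : R.sl i.1 < R.sl j.1) {t t' : G.T}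
    {a a' : Fin La} {s s' : R.T}
    (hτ : t < t' ∨ (t = t' ∧ (a < a' ∨ (a = a' ∧ s < s'))))
    (h : key G R La x t a s i ≤ key G R La x t a s j) :
    key G R La x t' a' s' i < key G R La x t' a' s' j := by
  have htt : t ≤ t' := by
    rcases hτ with h1 | h1
    · exact h1.le
    · exact h1.1.le
  have hcol := col_mono G x htt
  have h1 := val_sub (G := G) (R := R) (La := La) x t i j
  have h2 := val_sub (G := G) (R := R) (La := La) x t' i j
  have hs' : (1 : ℤ) ≤ (R.sl j.1 : ℤ) - R.sl i.1 := by
    have : (R.sl i.1 : ℤ) < R.sl j.1 := by exact_mod_cast hs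
    linarith
  have hcol' : (col G x t : ℤ) ≤ col G x t' := by exact_mod_cast hcol
  have hval : val G R La x t i ≤ val G R La x t j := by
    unfold key at h
    rw [lex_le] at h
    rcases h with h | h
    · exact h.le
    · exact h.1.le
  have hdiff : val G R La x t j - val G R La x t i ≤ val G R La x t' j - val G R La x t' i := by
    rw [h1, h2]
    nlinarith
  unfold key at h ⊢
  rw [lex_lt]
  rw [lex_le] at h
  by_cases hv : val G R La x t' i < val G R La x t' j
  · exact Or.inl hv
  · right
    have hveq' : val G R La x t' i = val G R La x t' j := by linarith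
    have hveq : val G R La x t i = val G R La x t j := by linarith
    have hceq : col G x t = col G x t' := by
      have h3 : ((R.sl j.1 : ℤ) - R.sl i.1) * ((col G x t' : ℤ) - col G x t) = 0 := by
        have : val G R La x t' j - val G R La x t' i
          - (val G R La x t j - val G R La x t i) = 0 := by linarith
        rw [h1, h2] at this
        linarith
      rcases mul_eq_zero.1 h3 with h4 | h4
      · omega
      · omega
    refine ⟨hveq', ?_⟩
    have hy : R.y (sg G R La x t a s (val G R La x t i)) i.1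
        ≤ R.y (sg G R La x t a s (val G R La x t i)) j.1 := by
      rcases h with h | h
      · exact absurd h (by rw [hveq]; exact lt_irrefl _)
      · rw [hveq] at h ⊢
        exact h.2
    rw [← hveq']
    have hvv : val G R La x t' i = val G R La x t i := by
      unfold val
      rw [hceq]
    rw [hvv]
    set v := val G R La x t i with hvdef
    -- the state of the copy is monotone
    have hnotev : t < t' → ¬ (t ∈ G.E ∧ x = G.lo t) := by
      rintro h5 ⟨h6, rfl⟩
      have := col_lt G h5 h6
      omega
    have hsg : sg G R La x t a s v ≤ sg G R La x t' a' s' v := by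
      rcases hτ with h5 | ⟨rfl, h5⟩
      · have : sg G R La x t a s v = R.t0 := by
          unfold sg
          rw [if_neg (hnotev h5)]
        rw [this]
        exact R.ht0 _
      · exact sg_mono h5
    rcases lt_or_eq_of_le hsg with h7 | h7
    · exact R.cross _ _ hs _ _ h7 hy
    · rw [← h7]
      refine lt_of_le_of_ne hy ?_
      intro h8
      have hij : i.1 ≠ j.1 := by
        intro h9
        rw [h9] at hs
        exact lt_irrefl _ hs
      have h9 := (R.tie _ _ _ hij h8).1
      have h10 := sg_E h9
      have h11 := h9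
      rw [h7] at h11
      have h12 := sg_E h11
      rcases hτ with h5 | ⟨rfl, h5⟩
      · exact hnotev h5 ⟨h10.1, h10.2.1⟩
      · have h13 : (row G R La a : ℤ) = row G R La a' := by rw [← h10.2.2.1, ← h12.2.2.1]
        have h14 : a = a' := by
          unfold row at h13
          apply Fin.ext
          have : a.1 + off G R = a'.1 + off G R := by exact_mod_cast h13
          omega
        have h15 : s = s' := by
          rw [← h10.2.2.2, ← h12.2.2.2]
          exact h7
        rcases h5 with h5 | h5
        · exact absurd h5 (by rw [h14]; exact lt_irrefl _)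
        · exact absurd h5.2 (by rw [h15]; exact lt_irrefl _)

/-- wires of equal slope in one bundle do not change their order -/
theorem key_par {x : G.W} {i j : BW G R La} (hij : i ≠ j) (hs : R.sl i.1 = R.sl j.1)
    {t t' : G.T} {a a' : Fin La} {s s' : R.T}
    (h : key G R La x t a s i < key G R La x t a s j) :
    key G R La x t' a' s' i < key G R La x t' a' s' j := by
  have h1 := val_sub (G := G) (R := R) (La := La) x t i j
  have h2 := val_sub (G := G) (R := R) (La := La) x t' i j
  rw [hs, sub_self, zero_mul, add_zero] at h1 h2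
  unfold key at h ⊢
  rw [lex_lt] at h ⊢
  rcases h with h | ⟨h, h3⟩
  · left
    linarith
  · right
    refine ⟨by linarith, ?_⟩
    have hb : i.2 = j.2 := by
      apply Fin.ext
      have : (i.2.1 : ℤ) = j.2.1 := by linarith
      exact_mod_cast this
    have hl : i.1 ≠ j.1 := fun h4 => hij (Prod.ext h4 hb)
    rw [← h] at h3
    have hveq' : val G R La x t' j = val G R La x t' i := by linarith
    rw [hveq']
    exact R.par _ _ hl hs _ _ h3

theorem key_parne {x : G.W} {i j : BW G R La} (hij : i ≠ j) (hs : R.sl i.1 = R.sl j.1)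
    {t : G.T} {a : Fin La} {s : R.T} :
    key G R La x t a s i ≠ key G R La x t a s j := by
  intro h
  unfold key at h
  have h1 := congrArg (fun z => (ofLex z).1) h
  have h2 := congrArg (fun z => (ofLex z).2) h
  simp only [ofLex_toLex] at h1 h2
  have h3 := val_sub (G := G) (R := R) (La := La) x t i j
  rw [hs, sub_self, zero_mul, add_zero] at h3
  have hb : i.2 = j.2 := by
    apply Fin.ext
    have : (i.2.1 : ℤ) = j.2.1 := by linarith
    exact_mod_cast this
  have hl : i.1 ≠ j.1 := fun h4 => hij (Prod.ext h4 hb)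
  rw [← h1] at h2
  exact R.parne _ _ hl hs _ h2

theorem key_tie {x : G.W} {i j : BW G R La} (hij : i ≠ j) {t : G.T} {a : Fin La} {s : R.T}
    (h : key G R La x t a s i = key G R La x t a s j) :
    t ∈ G.E ∧ x = G.lo t ∧ s ∈ R.E ∧ val G R La x t i = row G R La a ∧
      val G R La x t j = row G R La a ∧
      ((i.1 = R.lo s ∧ j.1 = R.up s) ∨ (i.1 = R.up s ∧ j.1 = R.lo s)) := by
  unfold key at h
  have h1 := congrArg (fun z => (ofLex z).1) h
  have h2 := congrArg (fun z => (ofLex z).2) h
  simp only [ofLex_toLex] at h1 h2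
  have hl : i.1 ≠ j.1 := by
    intro h4
    apply hij
    have h3 := val_sub (G := G) (R := R) (La := La) x t i j
    rw [h4, sub_self, zero_mul, add_zero] at h3
    have hb : i.2 = j.2 := by
      apply Fin.ext
      have : (i.2.1 : ℤ) = j.2.1 := by linarith
      exact_mod_cast this
    exact Prod.ext h4 hb
  rw [← h1] at h2
  obtain ⟨h5, h6⟩ := R.tie _ _ _ hl h2
  obtain ⟨h7, h8, h9, h10⟩ := sg_E h5
  rw [h10] at h5 h6
  exact ⟨h7, h8, h5, h9, by rw [← h1]; exact h9, h6⟩

end product

end Cfg

end Pool.Agent.PLevel
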