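import Pool.Agent.PLevel.Prod

/-!
# Small configurations
-/

namespace Pool.Agent.PLevel

open Finset

/-- heights of nine pseudolines at fourteen times -/
def baseY : Fin 14 → Fin 9 → ℕ :=
  ![![0, 1, 2, 3, 4, 5, 6, 7, 8],
    ![0, 1, 2, 3, 3, 6, 5, 7, 8],
    ![0, 1, 2, 5, 3, 6, 3, 7, 8],
    ![0, 1, 3, 5, 3, 6, 2, 7, 8],
    ![0, 3, 3, 5, 2, 6, 1, 7, 8],
    ![3, 3, 2, 5, 1, 6, 0, 7, 8],
    ![5, 3, 2, 3, 1, 6, 0, 7, 8],
    ![6, 5, 2, 3, 1, 3, 0, 7, 8],
    ![8, 7, 3, 3, 1, 2, 0, 5, 6],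
    ![8, 7, 6, 3, 1, 2, 0, 3, 5],
    ![8, 7, 6, 5, 1, 2, 0, 3, 3],
    ![8, 7, 6, 5, 1, 3, 0, 3, 2],
    ![8, 7, 6, 5, 3, 3, 1, 2, 0],
    ![8, 7, 6, 5, 4, 3, 2, 1, 0]]

/-- Nine pseudolines with twelve crossings at level three. -/
def base : Cfg where
  W := Fin 9
  T := Fin 14
  A := ℕ
  y := baseY
  sl := fun i => 8 - i.1
  E := univ.filter (fun t : Fin 14 => 0 < t.1 ∧ t.1 < 13)
  lo := ![0, 4, 6, 4, 2, 1, 3, 5, 3, 7, 8, 7, 5, 0]
  up := ![0, 3, 4, 2, 1, 0, 1, 3, 2, 3, 7, 5, 4, 0]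
  K := 3
  V := 2
  H := 9
  c := 4
  t0 := 0
  t1 := 13
  ht0 := fun t => Fin.zero_le t
  ht1 := fun t => Fin.le_last t
  h0E := by decide +kernel
  h1E := by decide +kernel
  slH := by decide +kernel
  cH := by decide +kernel
  avg := by decide +kernel
  cross := by decide +kernel
  par := by decide +kernel
  parne := by decide +kernel
  tie := by decide +kernel
  evy := by decide +kernel
  evs := by decide +kernel
  evK := by decide +kernel
  vis := by decide +kernel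

/-- Two pseudolines. -/
def triv : Cfg where
  W := Fin 2
  T := Fin 3
  A := ℕ
  y := ![![0, 1], ![0, 0], ![1, 0]]
  sl := ![2, 0]
  E := {1}
  lo := ![1, 1, 1]
  up := ![0, 0, 0]
  K := 0
  V := 1
  H := 3
  c := 1
  t0 := 0
  t1 := 2
  ht0 := fun t => Fin.zero_le t
  ht1 := fun t => Fin.le_last t
  h0E := by decide +kernel
  h1E := by decide +kernel
  slH := by decide +kernel
  cH := by decide +kernel
  avg := by decide +kernel
  cross := by decide +kernel
  par := by decide +kernel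
  parne := by decide +kernel
  tie := by decide +kernel
  evy := by decide +kernel
  evs := by decide +kernel
  evK := by decide +kernel
  vis := by decide +kernel

end Pool.Agent.PLevel
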