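import Pool.Agent.PLevel.Base
import Pool.Agent.PLevel.Assemble
import Mathlib.Analysis.SpecialFunctions.Log.Basic
import Mathlib.Analysis.SpecialFunctions.Exp
import Mathlib.Analysis.Complex.ExponentialBounds

/-!
# Iterated products and the bound
-/

namespace Pool.Agent.PLevel

open Finset

/-- iterated squares of the base configuration -/
def gen : ℕ → Cfg
  | 0 => base
  | j + 1 => Cfg.prod (gen j) (gen j) (30 * 18 ^ (2 ^ j)) (by positivity)

theorem gen_HV (j : ℕ) : (gen j).H = 9 ^ (2 ^ j) ∧ (gen j).V = 2 ^ (2 ^ j) := by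
  induction j with
  | zero => exact ⟨rfl, rfl⟩
  | succ j ih =>
    have h1 : (gen (j + 1)).H = (gen j).H * (gen j).H := rfl
    have h2 : (gen (j + 1)).V = (gen j).V * (gen j).V := rfl
    rw [h1, h2, ih.1, ih.2, ← pow_add, ← pow_add]
    have h3 : 2 ^ j + 2 ^ j = 2 ^ (j + 1) := by ring
    rw [h3]
    exact ⟨rfl, rfl⟩

theorem gen_LL (j : ℕ) : Cfg.LL (gen j) (gen j) (30 * 18 ^ (2 ^ j)) = 32 * 18 ^ (2 ^ j) := by
  unfold Cfg.LL Cfg.off
  rw [(gen_HV j).1, (gen_HV j).2, ← mul_pow]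
  norm_num
  ring

/-- number of pseudolines -/
def nn (j : ℕ) : ℕ := Fintype.card (gen j).W

/-- number of crossings -/
def ee (j : ℕ) : ℕ := (gen j).E.card

theorem nn_zero : nn 0 = 9 := by
  show Fintype.card (Fin 9) = 9
  simp

theorem ee_zero : ee 0 = 12 := by
  show (univ.filter (fun t : Fin 14 => 0 < t.1 ∧ t.1 < 13)).card = 12
  decide +kernel

theorem nn_succ (j : ℕ) : nn (j + 1) = nn j * (nn j * (32 * 18 ^ (2 ^ j))) := by
  have h1 : nn (j + 1) = Fintype.card (Cfg.PW (gen j) (gen j) (30 * 18 ^ (2 ^ j))) := rfl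
  rw [h1, Fintype.card_prod, Cfg.card_BW, gen_LL]
  rfl

theorem ee_succ (j : ℕ) : ee (j + 1) = ee j * (30 * 18 ^ (2 ^ j) * ee j) := by
  have h1 : ee (j + 1) = (Cfg.pE (gen j) (gen j) (30 * 18 ^ (2 ^ j))).card := rfl
  rw [h1, Cfg.card_pE]
  rfl

theorem nn_pos (j : ℕ) : 0 < nn j := by
  induction j with
  | zero => rw [nn_zero]; norm_num
  | succ j ih => rw [nn_succ]; positivity

theorem ee_pos (j : ℕ) : 0 < ee j := by
  induction j with
  | zero => rw [ee_zero]; norm_num
  | succ j ih => rw [ee_succ]; positivity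

theorem ratio (j : ℕ) : 15 * 4 ^ (2 ^ j) * ee j = 16 * 5 ^ (2 ^ j) * nn j := by
  induction j with
  | zero => rw [ee_zero, nn_zero]; norm_num
  | succ j ih =>
    rw [nn_succ, ee_succ]
    have h3 : 2 ^ (j + 1) = 2 ^ j + 2 ^ j := by ring
    rw [h3, pow_add, pow_add]
    have h4 : 15 * (4 ^ (2 ^ j) * 4 ^ (2 ^ j)) * (ee j * (30 * 18 ^ (2 ^ j) * ee j))
        = 2 * 18 ^ (2 ^ j) * ((15 * 4 ^ (2 ^ j) * ee j) * (15 * 4 ^ (2 ^ j) * ee j)) := by ring
    rw [h4, ih]
    ring

theorem nn_le (j : ℕ) : nn j ≤ 288 ^ ((j + 1) * 2 ^ j) := by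
  induction j with
  | zero => rw [nn_zero]; norm_num
  | succ j ih =>
    rw [nn_succ]
    have h1 : 32 * 18 ^ (2 ^ j) ≤ 288 ^ (2 ^ j) * 288 ^ (2 ^ j) := by
      rw [← mul_pow]
      have h2 : (32 * 18) ^ (2 ^ j) ≤ (288 * 288) ^ (2 ^ j) := Nat.pow_le_pow_left (by norm_num) _
      refine le_trans ?_ h2
      rw [mul_pow]
      refine Nat.mul_le_mul_right _ ?_
      calc 32 = 32 ^ 1 := by norm_num
        _ ≤ 32 ^ (2 ^ j) := Nat.pow_le_pow_right (by norm_num) (Nat.one_le_two_pow)
    calc nn j * (nn j * (32 * 18 ^ (2 ^ j)))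
        ≤ 288 ^ ((j + 1) * 2 ^ j) * (288 ^ ((j + 1) * 2 ^ j)
          * (288 ^ (2 ^ j) * 288 ^ (2 ^ j))) := by gcongr
      _ = 288 ^ ((j + 1 + 1) * 2 ^ (j + 1)) := by
        rw [← pow_add, ← pow_add, ← pow_add]
        congr 1
        ring

theorem nn_lt_succ (j : ℕ) : nn j < nn (j + 1) := by
  rw [nn_succ]
  have h1 := nn_pos j
  have h2 : 32 ≤ 32 * 18 ^ (2 ^ j) := Nat.le_mul_of_pos_right _ (by positivity)
  have h3 : 32 ≤ nn j * (32 * 18 ^ (2 ^ j)) := le_trans h2 (Nat.le_mul_of_pos_left _ h1)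
  nlinarith

theorem nn_gt (j : ℕ) : j < nn j := by
  induction j with
  | zero => exact nn_pos 0
  | succ j ih => exact lt_of_le_of_lt ih (nn_lt_succ j)

theorem K_lt (j : ℕ) : (gen j).K < nn j := by
  obtain ⟨t, ht⟩ := card_pos.1 (ee_pos j)
  rw [← (gen j).evK t ht]
  unfold nn
  rw [← card_univ]
  refine card_lt_card ?_
  rw [ssubset_iff_of_subset (subset_univ _)]
  refine ⟨(gen j).lo t, mem_univ _, ?_⟩
  rw [mem_filter]
  intro h2
  exact lt_irrefl _ h2.2

/-- the constant -/
noncomputable def cst : ℝ := Real.log 2 * Real.log (5 / 4) / (8 * Real.log 288)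

theorem cst_pos : 0 < cst := by
  unfold cst
  have h1 : 0 < Real.log 2 := Real.log_pos (by norm_num)
  have h2 : 0 < Real.log (5 / 4) := Real.log_pos (by norm_num)
  have h3 : 0 < Real.log 288 := Real.log_pos (by norm_num)
  positivity

theorem log54 : Real.log (5 / 4) ≤ 1 / 4 := by
  have := Real.log_le_sub_one_of_pos (show (0 : ℝ) < 5 / 4 by norm_num)
  linarith

theorem cst_le : cst ≤ 1 / 32 := by
  unfold cst
  have h1 : 0 < Real.log 2 := Real.log_pos (by norm_num)
  have h3 : Real.log 2 ≤ Real.log 288 := Real.log_le_log (by norm_num) (by norm_num)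
  rw [div_le_iff₀ (by positivity)]
  have h2 : 0 < Real.log (5 / 4) := Real.log_pos (by norm_num)
  nlinarith [log54]

theorem cst_le' : cst ≤ Real.log 2 * Real.log (5 / 4) := by
  unfold cst
  have h1 : 0 < Real.log 2 := Real.log_pos (by norm_num)
  have h2 : 0 < Real.log (5 / 4) := Real.log_pos (by norm_num)
  have h3 : 1 / 8 ≤ Real.log 288 := by
    have h4 : Real.log 2 ≤ Real.log 288 := Real.log_le_log (by norm_num) (by norm_num)
    have := Real.log_two_gt_d9
    linarith
  rw [div_le_iff₀ (by positivity)]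
  have : 0 < Real.log 2 * Real.log (5 / 4) := by positivity
  nlinarith

/-- the exponent estimate -/
theorem expo (j : ℕ) {x : ℝ} (hx0 : 0 ≤ x)
    (hx : x ≤ ((j : ℝ) + 2) * 2 ^ (j + 1) * Real.log 288) :
    cst * x / Real.log (2 + x) ≤ 2 ^ j * Real.log (5 / 4) := by
  have h1 : 0 < Real.log 2 := Real.log_pos (by norm_num)
  have h2 : 0 < Real.log (5 / 4) := Real.log_pos (by norm_num)
  have h3 : 0 < Real.log 288 := Real.log_pos (by norm_num)
  have h4 : Real.log 2 ≤ Real.log (2 + x) := Real.log_le_log (by norm_num) (by linarith)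
  have h5 : 0 < Real.log (2 + x) := lt_of_lt_of_le h1 h4
  rw [div_le_iff₀ h5]
  rcases le_or_gt x (2 ^ j) with h6 | h6
  · have h7 : cst * x ≤ Real.log 2 * Real.log (5 / 4) * 2 ^ j :=
      mul_le_mul cst_le' h6 hx0 (by positivity)
    have h8 : Real.log 2 * Real.log (5 / 4) * 2 ^ j
        ≤ 2 ^ j * Real.log (5 / 4) * Real.log (2 + x) := by
      have h9 : Real.log 2 * (Real.log (5 / 4) * 2 ^ j)
          ≤ Real.log (2 + x) * (Real.log (5 / 4) * 2 ^ j) :=
        mul_le_mul_of_nonneg_right h4 (by positivity)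
      linarith
    linarith
  · have h7 : ((j : ℝ) + 1) / 2 * Real.log 2 ≤ Real.log (2 + x) := by
      rcases Nat.eq_zero_or_pos j with h8 | h8
      · subst h8
        simp only [Nat.cast_zero]
        linarith
      · have h9 : (j : ℝ) * Real.log 2 ≤ Real.log (2 + x) := by
          rw [← Real.log_pow]
          exact Real.log_le_log (by positivity) (by linarith)
        have h10 : (1 : ℝ) ≤ j := by exact_mod_cast h8
        have h11 : ((j : ℝ) + 1) / 2 * Real.log 2 ≤ (j : ℝ) * Real.log 2 :=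
          mul_le_mul_of_nonneg_right (by linarith) h1.le
        linarith
    have h8 : cst * x ≤ cst * (((j : ℝ) + 2) * 2 ^ (j + 1) * Real.log 288) :=
      mul_le_mul_of_nonneg_left hx cst_pos.le
    have h9 : cst * (((j : ℝ) + 2) * 2 ^ (j + 1) * Real.log 288)
        = Real.log 2 * Real.log (5 / 4) * ((j : ℝ) + 2) * 2 ^ j / 4 := by
      unfold cst
      field_simp
      ring
    have h10 : Real.log 2 * Real.log (5 / 4) * ((j : ℝ) + 2) * 2 ^ j / 4
        ≤ 2 ^ j * Real.log (5 / 4) * (((j : ℝ) + 1) / 2 * Real.log 2) := by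
      have hj : (0 : ℝ) ≤ j := Nat.cast_nonneg j
      have h11 : ((j : ℝ) + 2) / 4 ≤ ((j : ℝ) + 1) / 2 := by linarith
      have h12 : (Real.log 2 * Real.log (5 / 4) * 2 ^ j) * (((j : ℝ) + 2) / 4)
          ≤ (Real.log 2 * Real.log (5 / 4) * 2 ^ j) * (((j : ℝ) + 1) / 2) :=
        mul_le_mul_of_nonneg_left h11 (by positivity)
      linarith
    have h11 : 2 ^ j * Real.log (5 / 4) * (((j : ℝ) + 1) / 2 * Real.log 2)
        ≤ 2 ^ j * Real.log (5 / 4) * Real.log (2 + x) :=
      mul_le_mul_of_nonneg_left h7 (by positivity)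
    linarith

/-- Many letters `k` when the level is in the lower half. -/
theorem low_half {n k : ℕ} (hn : 2 ≤ n) (hk : 2 * k + 1 ≤ n) :
    ∃ w, Sweep n 1 w Fin.revPerm ∧
      cst * n * Real.exp (cst * Real.log ((k : ℝ) + 1) / Real.log (2 + Real.log ((k : ℝ) + 1)))
        ≤ w.count k := by
  have hx0 : 0 ≤ Real.log ((k : ℝ) + 1) :=
    Real.log_nonneg (by have : (0 : ℝ) ≤ k := Nat.cast_nonneg k; linarith)
  by_cases hsmall : k + 1 < nn 0
  · -- small levels
    rw [nn_zero] at hsmall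
    have hr : n = ((n - k) / 2) * Fintype.card triv.W + (k + (n - k) % 2) := by
      have h1 : Fintype.card triv.W = 2 := rfl
      rw [h1]
      omega
    obtain ⟨w, hw, hc⟩ := Cfg.assemble triv hr
    refine ⟨w, hw, ?_⟩
    have h2 : triv.E.card = 1 := rfl
    have h3 : k + triv.K = k := rfl
    rw [h2, h3, mul_one] at hc
    have h4 : n ≤ 8 * ((n - k) / 2) := by omega
    have h5 : (n : ℝ) ≤ 8 * w.count k := by
      have : n ≤ 8 * w.count k := by omega
      exact_mod_cast this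
    have h6 : Real.log ((k : ℝ) + 1) ≤ 2 ^ 0 * 4 := by
      have h7 : (k : ℝ) + 1 ≤ 8 := by
        have : k + 1 ≤ 8 := by omega
        exact_mod_cast this
      have h8 : Real.log ((k : ℝ) + 1) ≤ Real.log 8 := Real.log_le_log (by positivity) h7
      have h9 : Real.log 8 = 3 * Real.log 2 := by
        rw [show (8 : ℝ) = 2 ^ 3 by norm_num, Real.log_pow]
        norm_num
      have := Real.log_two_lt_d9
      linarith
    have h7 : Real.exp (cst * Real.log ((k : ℝ) + 1) / Real.log (2 + Real.log ((k : ℝ) + 1)))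
        ≤ 5 / 4 := by
      have h8 := expo 0 hx0 (by
        have h9 : Real.log 2 ≤ Real.log 288 := Real.log_le_log (by norm_num) (by norm_num)
        have h10 : 1 ≤ Real.log 288 := by
          have h11 : Real.log 4 ≤ Real.log 288 := Real.log_le_log (by norm_num) (by norm_num)
          have h12 : Real.log 4 = 2 * Real.log 2 := by
            rw [show (4 : ℝ) = 2 ^ 2 by norm_num, Real.log_pow]
            norm_num
          have := Real.log_two_gt_d9
          linarith
        norm_num at h6 ⊢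
        linarith)
      rw [pow_zero, one_mul] at h8
      calc _ ≤ Real.exp (Real.log (5 / 4)) := Real.exp_le_exp.2 h8
        _ = 5 / 4 := Real.exp_log (by norm_num)
    have h8 : cst * n ≤ 1 / 32 * (8 * w.count k) :=
      mul_le_mul cst_le h5 (Nat.cast_nonneg n) (by norm_num)
    have h9 : cst * n * Real.exp (cst * Real.log ((k : ℝ) + 1)
        / Real.log (2 + Real.log ((k : ℝ) + 1))) ≤ 1 / 32 * (8 * w.count k) * (5 / 4) :=
      mul_le_mul h8 h7 (Real.exp_pos _).le (by positivity)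
    have h10 : (0 : ℝ) ≤ w.count k := Nat.cast_nonneg _
    linarith
  · -- large levels
    push Not at hsmall
    have hex : ∃ j, nn j ≤ k + 1 ∧ k + 1 < nn (j + 1) := by
      by_contra hno
      push Not at hno
      have : ∀ j, nn j ≤ k + 1 := by
        intro j
        induction j with
        | zero => exact hsmall
        | succ j ih => exact hno j ih
      have h1 := this (k + 1)
      have h2 := nn_gt (k + 1)
      omega
    obtain ⟨j, hj1, hj2⟩ := hex
    have hK := K_lt j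
    set N := nn j with hN
    have hN0 : 0 < N := nn_pos j
    set p := k - (gen j).K with hp
    set r := (n - p) / N with hrdef
    have hr1 : r * N + (n - p) % N = n - p := by
      rw [hrdef, mul_comm]
      exact Nat.div_add_mod (n - p) N
    have hmod : (n - p) % N < N := Nat.mod_lt _ hN0
    have hr : n = r * Fintype.card (gen j).W + (p + (n - p) % N) := by
      have h1 : Fintype.card (gen j).W = N := rfl
      rw [h1]
      omega
    obtain ⟨w, hw, hc⟩ := Cfg.assemble (gen j) hr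
    refine ⟨w, hw, ?_⟩
    have h3 : p + (gen j).K = k := by omega
    have h2 : (gen j).E.card = ee j := rfl
    rw [h2, h3] at hc
    have hr4 : n ≤ 4 * (r * N) := by
      have h4 : 1 ≤ r := by
        rw [hrdef]
        exact (Nat.one_le_div_iff hN0).2 (by omega)
      have h5 : N ≤ r * N := Nat.le_mul_of_pos_left _ h4
      omega
    -- the ratio
    have hrat := ratio j
    have h5 : (n : ℝ) * (5 / 4) ^ (2 ^ j) ≤ 4 * w.count k := by
      have h6 : (15 : ℝ) * 4 ^ (2 ^ j) * ee j = 16 * 5 ^ (2 ^ j) * N := by exact_mod_cast hrat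
      have h7 : ((5 : ℝ) / 4) ^ (2 ^ j) = 5 ^ (2 ^ j) / 4 ^ (2 ^ j) := div_pow _ _ _
      have h8 : (n : ℝ) ≤ 4 * (r * N) := by exact_mod_cast hr4
      have h9 : (r : ℝ) * ee j ≤ w.count k := by exact_mod_cast hc
      have h10 : (0 : ℝ) < 4 ^ (2 ^ j) := by positivity
      have h11 : (0 : ℝ) < 5 ^ (2 ^ j) := by positivity
      rw [h7, mul_div_assoc', div_le_iff₀ h10]
      have hr0 : (0 : ℝ) ≤ r := Nat.cast_nonneg r
      have h12 : (n : ℝ) * 5 ^ (2 ^ j) ≤ 4 * (r * N) * 5 ^ (2 ^ j) :=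
        mul_le_mul_of_nonneg_right h8 h11.le
      have h13 : 4 * ((r : ℝ) * N) * 5 ^ (2 ^ j) = r * (15 * 4 ^ (2 ^ j) * ee j) / 4 := by
        rw [h6]
        ring
      have h14 : (r : ℝ) * ee j * 4 ^ (2 ^ j) ≤ w.count k * 4 ^ (2 ^ j) :=
        mul_le_mul_of_nonneg_right h9 h10.le
      have h15 : (0 : ℝ) ≤ w.count k * 4 ^ (2 ^ j) := by positivity
      have h16 : (r : ℝ) * (15 * 4 ^ (2 ^ j) * ee j) / 4
          = 15 / 4 * ((r : ℝ) * ee j * 4 ^ (2 ^ j)) := by
        ring
      linarith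
    have hx : Real.log ((k : ℝ) + 1) ≤ ((j : ℝ) + 2) * 2 ^ (j + 1) * Real.log 288 := by
      have h6 : k + 1 ≤ 288 ^ ((j + 1 + 1) * 2 ^ (j + 1)) := hj2.le.trans (nn_le (j + 1))
      have h7 : (k : ℝ) + 1 ≤ (288 : ℝ) ^ ((j + 1 + 1) * 2 ^ (j + 1)) := by exact_mod_cast h6
      have h8 := Real.log_le_log (by positivity) h7
      rw [Real.log_pow] at h8
      push_cast at h8
      have h9 : ((j : ℝ) + 1 + 1) = j + 2 := by ring
      rwa [h9] at h8
    have h6 : Real.exp (cst * Real.log ((k : ℝ) + 1) / Real.log (2 + Real.log ((k : ℝ) + 1)))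
        ≤ (5 / 4) ^ (2 ^ j) := by
      calc _ ≤ Real.exp (2 ^ j * Real.log (5 / 4)) := Real.exp_le_exp.2 (expo j hx0 hx)
        _ = (5 / 4) ^ (2 ^ j) := by
          have h7 : (2 : ℝ) ^ j * Real.log (5 / 4) = ((2 ^ j : ℕ) : ℝ) * Real.log (5 / 4) := by
            push_cast
            rfl
          rw [h7, ← Real.log_pow, Real.exp_log (by positivity)]
    have hn0 : (0 : ℝ) ≤ n := Nat.cast_nonneg n
    calc cst * n * Real.exp (cst * Real.log ((k : ℝ) + 1)
        / Real.log (2 + Real.log ((k : ℝ) + 1)))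
        ≤ cst * n * (5 / 4) ^ (2 ^ j) :=
          mul_le_mul_of_nonneg_left h6 (mul_nonneg cst_pos.le hn0)
      _ = cst * (n * (5 / 4) ^ (2 ^ j)) := by ring
      _ ≤ 1 / 32 * (4 * w.count k) :=
          mul_le_mul cst_le h5 (by positivity) (by norm_num)
      _ ≤ w.count k := by
          have : (0 : ℝ) ≤ w.count k := Nat.cast_nonneg _
          linarith

end Pool.Agent.PLevel
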