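import Pool.Agent.PLevel.Cfg

/-!
# The product of two configurations
-/

namespace Pool.Agent.PLevel.Cfg

open Finset

section

variable (G R : Cfg) (La : ℕ)

/-- height at a time of the product -/
def pht (τ : PT G R La) (w : PW G R La) : PA G R :=
  ht G R La (ofLex τ).1 (ofLex (ofLex τ).2).1 (ofLex (ofLex τ).2).2 w.1 w.2

end

variable {G R : Cfg} {La : ℕ}

theorem pt_lt {τ τ' : PT G R La} : τ < τ' ↔
    (ofLex τ).1 < (ofLex τ').1 ∨ ((ofLex τ).1 = (ofLex τ').1 ∧
      ((ofLex (ofLex τ).2).1 < (ofLex (ofLex τ').2).1 ∨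
        ((ofLex (ofLex τ).2).1 = (ofLex (ofLex τ').2).1 ∧
          (ofLex (ofLex τ).2).2 < (ofLex (ofLex τ').2).2))) := by
  rw [Prod.Lex.lt_iff, Prod.Lex.lt_iff]

theorem row_mono {a a' : Fin La} (h : a ≤ a') : row G R La a ≤ row G R La a' := by
  unfold row
  have : a.1 ≤ a'.1 := h
  omega

theorem p_cross (w w' : PW G R La) (h : psl w < psl w') (τ τ' : PT G R La) (hτ : τ < τ')
    (hy : pht G R La τ w ≤ pht G R La τ w') : pht G R La τ' w < pht G R La τ' w' := by
  rw [pt_lt] at hτ
  unfold pht at hy ⊢
  set t := (ofLex τ).1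
  set a := (ofLex (ofLex τ).2).1
  set s := (ofLex (ofLex τ).2).2
  set t' := (ofLex τ').1
  set a' := (ofLex (ofLex τ').2).1
  set s' := (ofLex (ofLex τ').2).2
  have hle := le_of_ht hy
  rcases psl_lt h with h3 | ⟨h3, h4⟩
  · rcases hτ with h5 | ⟨h5, h6⟩
    · exact ht_lt_of (G.cross _ _ h3 _ _ h5 hle)
    · rw [← h5]
      rcases lt_or_eq_of_le hle with h7 | h7
      · exact ht_lt_of h7
      · have hne : w.1 ≠ w'.1 := by
          intro h8
          rw [h8] at h3
          exact lt_irrefl _ h3
        obtain ⟨h8, h9⟩ := G.tie t _ _ hne h7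
        rcases h9 with ⟨h9, h10⟩ | ⟨h9, h10⟩
        · rw [h9, h10] at hy ⊢
          have h11 := (ht_event h8).2.1.1 hy
          have h12 : row G R La a ≤ row G R La a' := by
            rcases h6 with h6 | h6
            · exact row_mono h6.le
            · exact row_mono h6.1.le
          refine (ht_event h8).1.2 ⟨lt_of_lt_of_le h11.1 (Nat.mul_le_mul_left _ h12), ?_⟩
          have : (row G R La a : ℤ) ≤ row G R La a' := by exact_mod_cast h12
          linarith [h11.2]
        · exfalso
          have := G.evs t h8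
          rw [h9, h10] at h3
          omega
  · by_cases hx : w.1 = w'.1
    · rw [← hx] at hy ⊢
      rw [ht_le_same] at hy
      rw [ht_lt_same]
      exact key_cross h4 hτ hy
    · have h5 : G.y t w.1 < G.y t w'.1 := lt_of_le_of_ne hle (G.parne _ _ hx h3 _)
      exact ht_lt_of (G.par _ _ hx h3 _ _ h5)

theorem p_par (w w' : PW G R La) (hne : w ≠ w') (h : psl w = psl w') (τ τ' : PT G R La)
    (hy : pht G R La τ w < pht G R La τ w') : pht G R La τ' w < pht G R La τ' w' := by
  unfold pht at hy ⊢
  obtain ⟨h3, h4⟩ := psl_eq h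
  by_cases hx : w.1 = w'.1
  · rw [← hx] at hy ⊢
    rw [ht_lt_same] at hy ⊢
    exact key_par (fun h5 => hne (Prod.ext hx h5)) h4 hy
  · have h5 := lt_of_le_of_ne (le_of_ht hy.le) (G.parne _ _ hx h3 _)
    exact ht_lt_of (G.par _ _ hx h3 _ _ h5)

theorem ht_inj_y {t : G.T} {a : Fin La} {s : R.T} {x x' : G.W} {i j : BW G R La}
    (h : ht G R La t a s x i = ht G R La t a s x' j) : G.y t x = G.y t x' := by
  unfold ht at h
  have h2 := congrArg (fun z => (ofLex z).1) h
  simpa only [ofLex_toLex] using h2

theorem ht_inj_key {t : G.T} {a : Fin La} {s : R.T} {x x' : G.W} {i j : BW G R La}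
    (h : ht G R La t a s x i = ht G R La t a s x' j) :
    key G R La x t a s i = key G R La x' t a s j := by
  unfold ht at h
  have h2 := congrArg (fun z => (ofLex (ofLex z).2).2) h
  simpa only [ofLex_toLex] using h2

theorem p_parne (w w' : PW G R La) (hne : w ≠ w') (h : psl w = psl w') (τ : PT G R La) :
    pht G R La τ w ≠ pht G R La τ w' := by
  intro hy
  unfold pht at hy
  obtain ⟨h3, h4⟩ := psl_eq h
  by_cases hx : w.1 = w'.1
  · have h6 := ht_inj_key hy
    rw [← hx] at h6
    exact key_parne (fun h5 => hne (Prod.ext hx h5)) h4 h6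
  · exact G.parne _ _ hx h3 _ (ht_inj_y hy)

/-! ### Events of the product -/

/-- embedding of the triples -/
def emb (G R : Cfg) (La : ℕ) : G.T × (Fin La × R.T) ↪ PT G R La :=
  ⟨fun z => toLex (z.1, toLex z.2), by
    intro z z' h
    have h1 := congrArg (fun q => (ofLex q).1) h
    have h2 := congrArg (fun q => ofLex (ofLex q).2) h
    simp only [ofLex_toLex] at h1 h2
    exact Prod.ext h1 h2⟩

/-- events -/
def pE (G R : Cfg) (La : ℕ) : Finset (PT G R La) :=
  (G.E ×ˢ ((univ : Finset (Fin La)) ×ˢ R.E)).map (emb G R La)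

theorem mem_pE {τ : PT G R La} :
    τ ∈ pE G R La ↔ (ofLex τ).1 ∈ G.E ∧ (ofLex (ofLex τ).2).2 ∈ R.E := by
  unfold pE
  rw [mem_map]
  constructor
  · rintro ⟨z, hz, rfl⟩
    rw [mem_product, mem_product] at hz
    exact ⟨hz.1, hz.2.2⟩
  · rintro ⟨h1, h2⟩
    refine ⟨((ofLex τ).1, ofLex (ofLex τ).2), ?_, rfl⟩
    rw [mem_product, mem_product]
    exact ⟨h1, mem_univ _, h2⟩

theorem card_pE : (pE G R La).card = G.E.card * (La * R.E.card) := by
  unfold pE
  rw [card_map, card_product, card_product, card_univ, Fintype.card_fin]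

/-- index of the row with base `z` -/
def bidx (G R : Cfg) (La : ℕ) (hLa : 0 < La) (z : ℤ) : Fin (LL G R La) :=
  ⟨z.toNat % LL G R La, Nat.mod_lt _ (by unfold LL; omega)⟩

theorem bidx_val {hLa : 0 < La} {z : ℤ} (h0 : 0 ≤ z) (h1 : z < LL G R La) :
    ((bidx G R La hLa z).1 : ℤ) = z := by
  unfold bidx
  simp only
  rw [Nat.mod_eq_of_lt (by omega)]
  omega

/-- the wire `l` of the copy in the row `a` -/
def wr (G R : Cfg) (La : ℕ) (hLa : 0 < La) (t : G.T) (a : Fin La) (l : R.W) : BW G R La :=
  (l, bidx G R La hLa ((row G R La a : ℤ) - ((R.sl l : ℤ) - R.c) * (col G (G.lo t) t : ℤ)))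

theorem wr_val (hLa : 0 < La) (t : G.T) (a : Fin La) (l : R.W) :
    val G R La (G.lo t) t (wr G R La hLa t a l) = row G R La a := by
  have h := drift_bound G R (G.lo t) t l
  have ha := a.2
  unfold val wr
  simp only
  rw [bidx_val]
  · ring
  · unfold row
    push_cast
    linarith [h.2, (by positivity : (0 : ℤ) ≤ (a.1 : ℤ))]
  · unfold row LL
    push_cast
    have : (a.1 : ℤ) < La := by exact_mod_cast ha
    linarith [h.1]

theorem eq_wr (hLa : 0 < La) {t : G.T} {a : Fin La} {i : BW G R La}
    (h : val G R La (G.lo t) t i = row G R La a) : i = wr G R La hLa t a i.1 := by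
  refine Prod.ext rfl ?_
  apply Fin.ext
  have h1 := wr_val (G := G) (R := R) hLa t a i.1
  unfold val at h h1
  have h2 : (wr G R La hLa t a i.1).1 = i.1 := rfl
  rw [h2] at h1
  have h3 : (i.2.1 : ℤ) = (wr G R La hLa t a i.1).2.1 := by linarith
  exact_mod_cast h3

theorem sg_row {t : G.T} (ht' : t ∈ G.E) {a : Fin La} {s : R.T} :
    sg G R La (G.lo t) t a s (row G R La a : ℤ) = s := by
  unfold sg
  rw [if_pos ⟨ht', rfl⟩, if_neg (lt_irrefl _), if_pos rfl]

theorem key_wr (hLa : 0 < La) {t : G.T} (ht' : t ∈ G.E) (a : Fin La) (s : R.T) (l : R.W) :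
    key G R La (G.lo t) t a s (wr G R La hLa t a l)
      = toLex ((row G R La a : ℤ), R.y s l) := by
  unfold key
  rw [wr_val, sg_row ht']
  rfl

/-- lower wire of the event -/
def plo (G R : Cfg) (La : ℕ) (hLa : 0 < La) (τ : PT G R La) : PW G R La :=
  (G.lo (ofLex τ).1, wr G R La hLa (ofLex τ).1 (ofLex (ofLex τ).2).1 (R.lo (ofLex (ofLex τ).2).2))

/-- upper wire of the event -/
def pup (G R : Cfg) (La : ℕ) (hLa : 0 < La) (τ : PT G R La) : PW G R La :=
  (G.lo (ofLex τ).1, wr G R La hLa (ofLex τ).1 (ofLex (ofLex τ).2).1 (R.up (ofLex (ofLex τ).2).2))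

theorem p_tie (hLa : 0 < La) (τ : PT G R La) (w w' : PW G R La) (hne : w ≠ w')
    (hy : pht G R La τ w = pht G R La τ w') :
    τ ∈ pE G R La ∧ ((w = plo G R La hLa τ ∧ w' = pup G R La hLa τ) ∨
      (w = pup G R La hLa τ ∧ w' = plo G R La hLa τ)) := by
  unfold pht at hy
  by_cases hx : w.1 = w'.1
  · have h6 := ht_inj_key hy
    rw [← hx] at h6
    obtain ⟨h1, h2, h3, h4, h5, h7⟩ := key_tie (fun h5 => hne (Prod.ext hx h5)) h6
    refine ⟨mem_pE.2 ⟨h1, h3⟩, ?_⟩
    rw [h2] at h4 h5
    have e1 := eq_wr hLa h4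
    have e2 := eq_wr hLa h5
    have hw : w = (G.lo (ofLex τ).1, w.2) := Prod.ext h2 rfl
    have hw' : w' = (G.lo (ofLex τ).1, w'.2) := Prod.ext (by rw [← hx]; exact h2) rfl
    rcases h7 with h7 | h7
    · left
      constructor
      · rw [hw, e1, h7.1]
        rfl
      · rw [hw', e2, h7.2]
        rfl
    · right
      constructor
      · rw [hw, e1, h7.1]
        rfl
      · rw [hw', e2, h7.2]
        rfl
  · exfalso
    obtain ⟨h1, h2⟩ := G.tie _ _ _ hx (ht_inj_y hy)
    rcases h2 with ⟨h2, h3⟩ | ⟨h2, h3⟩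
    · rw [h2, h3] at hy
      exact (ht_event h1).2.2 hy
    · rw [h2, h3] at hy
      exact (ht_event h1).2.2 hy.symm

/-! ### Counting -/

theorem card_fin_lt {n : ℕ} {z : ℤ} (h0 : 0 ≤ z) (h1 : z ≤ n) :
    ((univ.filter (fun b : Fin n => (b.1 : ℤ) < z)).card : ℤ) = z := by
  have h2 : (univ.filter (fun b : Fin n => (b.1 : ℤ) < z)).map Fin.valEmbedding
      = range z.toNat := by
    ext b
    simp only [mem_map, mem_filter, mem_univ, true_and, Fin.valEmbedding_apply, mem_range]
    constructor
    · rintro ⟨b', h3, rfl⟩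
      omega
    · intro h3
      exact ⟨⟨b, by omega⟩, by simp only; omega, rfl⟩
  have h3 := congrArg card h2
  rw [card_map, card_range] at h3
  rw [h3]
  omega

theorem cnt_val_lt (x : G.W) (t : G.T) (a : Fin La) :
    (univ.filter (fun i : BW G R La => val G R La x t i < row G R La a)).card
      = Fintype.card R.W * row G R La a := by
  have h1 : ((univ.filter (fun i : BW G R La => val G R La x t i < row G R La a)).card : ℤ)
      = ∑ l : R.W, ((univ.filter (fun b : Fin (LL G R La) =>
          val G R La x t (l, b) < row G R La a)).card : ℤ) := by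
    rw [card_filter]
    push_cast
    rw [Fintype.sum_prod_type]
    refine sum_congr rfl ?_
    intro l _
    rw [card_filter]
    push_cast
    rfl
  have h2 : ∀ l : R.W, ((univ.filter (fun b : Fin (LL G R La) =>
      val G R La x t (l, b) < row G R La a)).card : ℤ)
        = row G R La a - ((R.sl l : ℤ) - R.c) * (col G x t : ℤ) := by
    intro l
    have hd := drift_bound G R x t l
    rw [← card_fin_lt (n := LL G R La)
      (z := row G R La a - ((R.sl l : ℤ) - R.c) * (col G x t : ℤ))]
    · congr 2
      ext b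
      simp only [mem_filter, mem_univ, true_and]
      unfold val
      constructor
      · intro h
        simp only at h
        linarith
      · intro h
        simp only
        linarith
    · unfold row
      push_cast
      linarith [hd.2, (by positivity : (0 : ℤ) ≤ (a.1 : ℤ))]
    · unfold row LL
      push_cast
      have : (a.1 : ℤ) < La := by exact_mod_cast a.2
      linarith [hd.1]
  have h3 : ((univ.filter (fun i : BW G R La => val G R La x t i < row G R La a)).card : ℤ)
      = Fintype.card R.W * row G R La a := by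
    rw [h1, sum_congr rfl (fun l _ => h2 l), sum_sub_distrib, ← sum_mul, sum_sub_distrib]
    have h4 : ∑ l : R.W, (R.sl l : ℤ) = R.c * Fintype.card R.W := by
      have := R.avg
      exact_mod_cast this
    rw [h4]
    simp only [sum_const, card_univ, nsmul_eq_mul]
    ring
  exact_mod_cast h3

theorem rk_inj {x : G.W} {t : G.T} {i j : BW G R La}
    (h : rk G R La x t i = rk G R La x t j) : i = j := by
  rcases lt_trichotomy (own G R La x t i) (own G R La x t j) with h1 | h1 | h1
  · have := rk_lt h1
    omega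
  · exact own_inj h1
  · have := rk_lt h1
    omega

theorem rk_lt_card (x : G.W) (t : G.T) (i : BW G R La) :
    rk G R La x t i < Fintype.card (BW G R La) := by
  refine card_lt_card ?_
  rw [ssubset_iff_of_subset (subset_univ _)]
  refine ⟨i, mem_univ _, ?_⟩
  rw [mem_filter]
  intro h
  exact lt_irrefl _ h.2

theorem cnt_rk (x : G.W) (t : G.T) {r : ℕ} (hr : r ≤ Fintype.card (BW G R La)) :
    (univ.filter (fun i : BW G R La => rk G R La x t i < r)).card = r := by
  have himg : (univ : Finset (BW G R La)).image (rk G R La x t)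
      = range (Fintype.card (BW G R La)) := by
    apply eq_of_subset_of_card_le
    · intro z hz
      rw [mem_image] at hz
      obtain ⟨i, _, rfl⟩ := hz
      rw [mem_range]
      exact rk_lt_card x t i
    · rw [card_range, card_image_of_injective _ (fun i j h => rk_inj h), card_univ]
  have h2 : (univ.filter (fun i : BW G R La => rk G R La x t i < r)).image (rk G R La x t)
      = range r := by
    ext z
    rw [mem_image, mem_range]
    constructor
    · rintro ⟨i, hi, rfl⟩
      rw [mem_filter] at hi
      exact hi.2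
    · intro hz
      have : z ∈ (univ : Finset (BW G R La)).image (rk G R La x t) := by
        rw [himg, mem_range]
        omega
      rw [mem_image] at this
      obtain ⟨i, _, rfl⟩ := this
      exact ⟨i, by rw [mem_filter]; exact ⟨mem_univ _, hz⟩, rfl⟩
  have h3 := congrArg card h2
  rw [card_image_of_injective _ (fun i j h => rk_inj h), card_range] at h3
  exact h3

theorem row_le (a : Fin La) : row G R La a ≤ LL G R La := by
  unfold row LL
  have := a.2
  omega

theorem card_BW : Fintype.card (BW G R La) = Fintype.card R.W * LL G R La := by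
  rw [Fintype.card_prod, Fintype.card_fin]

/-- count in the bundle of the lower line -/
theorem cnt_lo (hLa : 0 < La) {t : G.T} (ht' : t ∈ G.E) (a : Fin La) {s : R.T} (hs : s ∈ R.E) :
    (univ.filter (fun i : BW G R La => key G R La (G.lo t) t a s i
      < key G R La (G.lo t) t a s (wr G R La hLa t a (R.lo s)))).card
      = Fintype.card R.W * row G R La a + R.K := by
  rw [key_wr hLa ht']
  have h1 : (univ.filter (fun i : BW G R La => key G R La (G.lo t) t a s i
      < toLex ((row G R La a : ℤ), R.y s (R.lo s))))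
      = (univ.filter (fun i : BW G R La => val G R La (G.lo t) t i < row G R La a)) ∪
        (univ.filter (fun l : R.W => R.y s l < R.y s (R.lo s))).image
          (fun l => wr G R La hLa t a l) := by
    ext i
    simp only [mem_filter, mem_univ, true_and, mem_union, mem_image]
    constructor
    · intro h
      unfold key at h
      rw [lex_lt] at h
      rcases h with h | ⟨h, h2⟩
      · exact Or.inl h
      · right
        refine ⟨i.1, ?_, (eq_wr hLa h).symm⟩
        rw [h, sg_row ht'] at h2
        exact h2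
    · rintro (h | ⟨l, h, rfl⟩)
      · unfold key
        rw [lex_lt]
        exact Or.inl h
      · rw [key_wr hLa ht', lex_lt]
        exact Or.inr ⟨rfl, h⟩
  rw [h1, card_union_of_disjoint, cnt_val_lt, card_image_of_injective, R.evK s hs]
  · intro l l' h
    exact congrArg Prod.fst h
  · rw [disjoint_left]
    intro i hi hi'
    rw [mem_filter] at hi
    rw [mem_image] at hi'
    obtain ⟨l, _, rfl⟩ := hi'
    rw [wr_val] at hi
    exact lt_irrefl _ hi.2

/-- count in the bundle of the upper line -/
theorem cnt_up (hLa : 0 < La) {t : G.T} (ht' : t ∈ G.E) (a : Fin La) {s : R.T} (l : R.W) :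
    (univ.filter (fun j : BW G R La => ht G R La t a s (G.up t) j
      < ht G R La t a s (G.lo t) (wr G R La hLa t a l))).card
      = Fintype.card R.W * LL G R La - Fintype.card R.W * row G R La a := by
  have h1 : (univ.filter (fun j : BW G R La => ht G R La t a s (G.up t) j
      < ht G R La t a s (G.lo t) (wr G R La hLa t a l)))
      = (univ.filter (fun j : BW G R La =>
        rk G R La (G.up t) t j < Fintype.card R.W * row G R La a))ᶜ := by
    ext j
    simp only [mem_filter, mem_univ, true_and, mem_compl]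
    rw [← not_le, (ht_event ht').2.1, wr_val]
    simp
  rw [h1, card_compl, cnt_rk, card_BW]
  rw [card_BW]
  exact Nat.mul_le_mul_left _ (row_le a)

theorem cnt_total (hLa : 0 < La) {t : G.T} (ht' : t ∈ G.E) (a : Fin La) {s : R.T}
    (hs : s ∈ R.E) :
    (univ.filter (fun w : PW G R La => ht G R La t a s w.1 w.2
      < ht G R La t a s (G.lo t) (wr G R La hLa t a (R.lo s)))).card
      = G.K * (Fintype.card R.W * LL G R La) + Fintype.card R.W * LL G R La + R.K := by
  set N := Fintype.card R.W * LL G R La with hN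
  set i0 := wr G R La hLa t a (R.lo s) with hi0
  have hne := G.lo_ne_up ht'
  have h1 : (univ.filter (fun w : PW G R La => ht G R La t a s w.1 w.2
      < ht G R La t a s (G.lo t) i0)).card
      = ∑ x : G.W, (univ.filter (fun i : BW G R La => ht G R La t a s x i
        < ht G R La t a s (G.lo t) i0)).card := by
    rw [card_filter, Fintype.sum_prod_type]
    refine sum_congr rfl ?_
    intro x _
    rw [card_filter]
  have h2 : ∀ x : G.W, (univ.filter (fun i : BW G R La => ht G R La t a s x i
        < ht G R La t a s (G.lo t) i0)).card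
      = (if G.y t x < G.y t (G.lo t) then N else 0)
        + ((if x = G.lo t then Fintype.card R.W * row G R La a + R.K else 0)
          + (if x = G.up t then N - Fintype.card R.W * row G R La a else 0)) := by
    intro x
    by_cases hx1 : x = G.lo t
    · subst hx1
      rw [if_neg (lt_irrefl _), if_pos rfl, if_neg hne, zero_add, add_zero]
      rw [← cnt_lo hLa ht' a hs]
      congr 1
      ext i
      simp only [mem_filter, mem_univ, true_and]
      rw [ht_lt_same]
    · by_cases hx2 : x = G.up t
      · subst hx2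
        rw [← G.evy t ht', if_neg (lt_irrefl _), if_neg (Ne.symm hne), if_pos rfl, zero_add,
          zero_add]
        exact cnt_up hLa ht' a _
      · rw [if_neg hx1, if_neg hx2, add_zero, add_zero]
        by_cases hlt : G.y t x < G.y t (G.lo t)
        · rw [if_pos hlt, hN, ← card_BW]
          rw [← card_univ]
          congr 1
          ext i
          simp only [mem_filter, mem_univ, true_and, iff_true]
          exact ht_lt_of hlt
        · rw [if_neg hlt]
          rw [card_eq_zero, filter_eq_empty_iff]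
          intro i _ h
          have h3 := le_of_ht h.le
          rcases lt_or_eq_of_le h3 with h4 | h4
          · exact hlt h4
          · obtain ⟨_, h5⟩ := G.tie _ _ _ hx1 h4
            rcases h5 with h5 | h5
            · exact hx1 h5.1
            · exact hx2 h5.1
  rw [h1, sum_congr rfl (fun x _ => h2 x), sum_add_distrib, sum_add_distrib, sum_ite_eq',
    sum_ite_eq', if_pos (mem_univ _), if_pos (mem_univ _)]
  have h3 : ∑ x : G.W, (if G.y t x < G.y t (G.lo t) then N else 0) = G.K * N := by
    rw [← sum_filter, sum_const, smul_eq_mul, G.evK t ht']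
  rw [h3]
  have h4 : Fintype.card R.W * row G R La a ≤ N := Nat.mul_le_mul_left _ (row_le a)
  omega

/-! ### The product configuration -/

theorem p_vis (hLa : 0 < La) (w : PW G R La) :
    ((pE G R La).filter (fun τ => plo G R La hLa τ = w)).card ≤ G.V * R.V := by
  have h1 : ((pE G R La).filter (fun τ => plo G R La hLa τ = w)).card
      ≤ ((G.E.filter (fun t => G.lo t = w.1)) ×ˢ (R.E.filter (fun s => R.lo s = w.2.1))).card := by
    refine card_le_card_of_injOn
      (fun τ => ((ofLex τ).1, (ofLex (ofLex τ).2).2)) ?_ ?_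
    · intro τ hτ
      rw [mem_coe, mem_filter, mem_pE] at hτ
      rw [mem_coe, mem_product, mem_filter, mem_filter]
      obtain ⟨⟨h2, h3⟩, h4⟩ := hτ
      refine ⟨⟨h2, ?_⟩, ⟨h3, ?_⟩⟩
      · rw [← h4]
        rfl
      · rw [← h4]
        rfl
    · intro τ hτ τ' hτ' h
      rw [mem_coe, mem_filter, mem_pE] at hτ hτ'
      obtain ⟨⟨h2, h3⟩, h4⟩ := hτ
      obtain ⟨⟨h2', h3'⟩, h4'⟩ := hτ'
      simp only [Prod.mk.injEq] at h
      obtain ⟨h5, h6⟩ := h
      have h7 := wr_val (G := G) (R := R) hLa (ofLex τ).1 (ofLex (ofLex τ).2).1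
        (R.lo (ofLex (ofLex τ).2).2)
      have h8 := wr_val (G := G) (R := R) hLa (ofLex τ').1 (ofLex (ofLex τ').2).1
        (R.lo (ofLex (ofLex τ').2).2)
      have h9 : w.2 = wr G R La hLa (ofLex τ).1 (ofLex (ofLex τ).2).1
        (R.lo (ofLex (ofLex τ).2).2) := by
        rw [← h4]
        rfl
      have h10 : w.2 = wr G R La hLa (ofLex τ').1 (ofLex (ofLex τ').2).1
        (R.lo (ofLex (ofLex τ').2).2) := by
        rw [← h4']
        rfl
      rw [← h9] at h7
      rw [← h10, ← h5, h7] at h8
      have h11 : (ofLex (ofLex τ).2).1 = (ofLex (ofLex τ').2).1 := by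
        unfold row at h8
        apply Fin.ext
        have : (ofLex (ofLex τ).2).1.1 + off G R = (ofLex (ofLex τ').2).1.1 + off G R := by
          exact_mod_cast h8
        omega
      have h12 : ofLex (ofLex τ).2 = ofLex (ofLex τ').2 := Prod.ext h11 h6
      exact Prod.ext h5 h12
  refine h1.trans ?_
  rw [card_product]
  exact Nat.mul_le_mul (G.vis _) (R.vis _)

theorem p_avg : ∑ w : PW G R La, psl w
    = (G.c * R.H + R.c) * Fintype.card (PW G R La) := by
  have h1 : ∑ w : PW G R La, psl w
      = ∑ x : G.W, ∑ i : BW G R La, (G.sl x * R.H + R.sl i.1) := by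
    rw [Fintype.sum_prod_type]
    rfl
  have h2 : ∑ i : BW G R La, R.sl i.1 = R.c * Fintype.card (BW G R La) := by
    rw [Fintype.sum_prod_type]
    simp only [sum_const, card_univ, Fintype.card_fin, smul_eq_mul]
    rw [← mul_sum, R.avg, card_BW]
    ring
  rw [h1]
  simp only [sum_add_distrib, sum_const, card_univ, smul_eq_mul, h2]
  rw [← mul_sum, ← sum_mul, G.avg]
  have h3 : Fintype.card (PW G R La) = Fintype.card G.W * Fintype.card (BW G R La) :=
    Fintype.card_prod _ _
  rw [h3]
  ring

/-- The product of two configurations. -/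
def prod (G R : Cfg) (La : ℕ) (hLa : 0 < La) : Cfg where
  W := PW G R La
  T := PT G R La
  A := PA G R
  y := pht G R La
  sl := psl
  E := pE G R La
  lo := plo G R La hLa
  up := pup G R La hLa
  K := G.K * (Fintype.card R.W * LL G R La) + Fintype.card R.W * LL G R La + R.K
  V := G.V * R.V
  H := G.H * R.H
  c := G.c * R.H + R.c
  t0 := toLex (G.t0, toLex (⟨0, hLa⟩, R.t0))
  t1 := toLex (G.t1, toLex (⟨La - 1, by omega⟩, R.t1))
  ht0 := by
    intro τ
    rw [← not_lt, pt_lt]
    simp only [ofLex_toLex, not_or, not_and, not_lt]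
    refine ⟨G.ht0 _, fun _ => ⟨?_, fun _ => R.ht0 _⟩⟩
    exact Nat.zero_le _
  ht1 := by
    intro τ
    rw [← not_lt, pt_lt]
    simp only [ofLex_toLex, not_or, not_and, not_lt]
    refine ⟨G.ht1 _, fun _ => ⟨?_, fun _ => R.ht1 _⟩⟩
    have := (ofLex (ofLex τ).2).1.2
    change (ofLex (ofLex τ).2).1.1 ≤ La - 1
    omega
  h0E := by
    rw [mem_pE]
    simp only [ofLex_toLex]
    exact fun h => G.h0E h.1
  h1E := by
    rw [mem_pE]
    simp only [ofLex_toLex]
    exact fun h => G.h1E h.1
  slH := by
    intro w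
    have h1 := G.slH w.1
    have h2 := R.slH w.2.1
    unfold psl
    calc G.sl w.1 * R.H + R.sl w.2.1 < G.sl w.1 * R.H + R.H := by omega
      _ = (G.sl w.1 + 1) * R.H := by ring
      _ ≤ G.H * R.H := Nat.mul_le_mul_right _ h1
  cH := by
    have h1 := G.cH
    have h2 := R.cH
    calc G.c * R.H + R.c < G.c * R.H + R.H := by omega
      _ = (G.c + 1) * R.H := by ring
      _ ≤ G.H * R.H := Nat.mul_le_mul_right _ h1
  avg := p_avg
  cross := by
    intro i j h t t' ht hy
    exact p_cross i j h t t' ht hy
  par := by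
    intro i j hne h t t' hy
    exact p_par i j hne h t t' hy
  parne := by
    intro i j hne h t
    exact p_parne i j hne h t
  tie := by
    intro t i j hne h
    exact p_tie hLa t i j hne h
  evy := by
    intro τ hτ
    rw [mem_pE] at hτ
    unfold pht plo pup
    simp only
    have h1 := key_wr (La := La) hLa hτ.1 (ofLex (ofLex τ).2).1 (ofLex (ofLex τ).2).2
      (R.lo (ofLex (ofLex τ).2).2)
    have h2 := key_wr (La := La) hLa hτ.1 (ofLex (ofLex τ).2).1 (ofLex (ofLex τ).2).2
      (R.up (ofLex (ofLex τ).2).2)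
    rw [R.evy _ hτ.2, ← h2] at h1
    apply le_antisymm
    · rw [ht_le_same]
      exact h1.le
    · rw [ht_le_same]
      exact h1.ge
  evs := by
    intro τ hτ
    rw [mem_pE] at hτ
    have h1 := R.evs _ hτ.2
    unfold psl plo pup
    simp only
    change G.sl _ * R.H + R.sl (R.lo (ofLex (ofLex τ).2).2)
      < G.sl _ * R.H + R.sl (R.up (ofLex (ofLex τ).2).2)
    omega
  evK := by
    intro τ hτ
    rw [mem_pE] at hτ
    exact cnt_total hLa hτ.1 (ofLex (ofLex τ).2).1 hτ.2
  vis := p_vis hLa

end Pool.Agent.PLevel.Cfg
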