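import Mathlib.Data.Fin.Rev
import Mathlib.Data.Fintype.Fin
import Mathlib.Data.Fintype.EquivFin
import Mathlib.Data.Fintype.Prod
import Mathlib.Data.List.Count
import Mathlib.Data.Finset.Card
import Mathlib.Order.Fin.Basic
import Mathlib.Order.Fin.Finset
import Mathlib.GroupTheory.Perm.Basic
import Mathlib.Tactic.Linarith

/-!
# Sweeps: arrangements of pseudolines as sequences of adjacent transpositions
-/

namespace Pool.Agent.PLevel

open Finset

/-- `Sweep n σ w τ`: a piece of a sweep of an arrangement of `n` pseudolines. A permutation `σ`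
gives the vertical order on the sweep line: `σ p` is the pseudoline at position `p` from below.
A letter `k` of the word `w` is a crossing of the pseudolines at the positions `k` and `k + 1`
(with exactly `k` pseudolines below it); it is allowed only if the lower one has the smaller label,
so two pseudolines cross at most once. -/
inductive Sweep (n : ℕ) : Equiv.Perm (Fin n) → List ℕ → Equiv.Perm (Fin n) → Prop
  | nil (σ : Equiv.Perm (Fin n)) : Sweep n σ [] σ
  | cons {σ τ : Equiv.Perm (Fin n)} {k : ℕ} {w : List ℕ} (hk : k + 1 < n)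
      (h : σ ⟨k, Nat.lt_of_succ_lt hk⟩ < σ ⟨k + 1, hk⟩)
      (hw : Sweep n (σ * Equiv.swap ⟨k, Nat.lt_of_succ_lt hk⟩ ⟨k + 1, hk⟩) w τ) :
      Sweep n σ (k :: w) τ

theorem Sweep.append {n : ℕ} {σ τ ρ : Equiv.Perm (Fin n)} {w w' : List ℕ}
    (h : Sweep n σ w τ) (h' : Sweep n τ w' ρ) : Sweep n σ (w ++ w') ρ := by
  induction h with
  | nil σ => exact h'
  | cons hk h hw ih => exact Sweep.cons hk h (ih h')

/-- all inversions of `σ` are inversions of `τ` -/
def Weak {n : ℕ} (σ τ : Equiv.Perm (Fin n)) : Prop :=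
  ∀ a b : Fin n, a < b → σ.symm b < σ.symm a → τ.symm b < τ.symm a

theorem swap_lt {n k : ℕ} (hk : k + 1 < n) (p q : Fin n)
    (h : Equiv.swap (⟨k, Nat.lt_of_succ_lt hk⟩ : Fin n) ⟨k + 1, hk⟩ p
      < Equiv.swap (⟨k, Nat.lt_of_succ_lt hk⟩ : Fin n) ⟨k + 1, hk⟩ q) :
    p < q ∨ (p = ⟨k + 1, hk⟩ ∧ q = ⟨k, Nat.lt_of_succ_lt hk⟩) := by
  rw [Equiv.swap_apply_def, Equiv.swap_apply_def] at h
  split_ifs at h with h1 h2 h3 h4 h5 h6 h7 h8 <;>
    simp only [Fin.lt_def, Fin.ext_iff] at * <;> omega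

/-- the number of inversions still to be made -/
def todo {n : ℕ} (σ τ : Equiv.Perm (Fin n)) : Finset (Fin n × Fin n) :=
  univ.filter (fun z => z.1 < z.2 ∧ σ.symm z.1 < σ.symm z.2 ∧ τ.symm z.2 < τ.symm z.1)

theorem eq_of_adj {n : ℕ} (f : Equiv.Perm (Fin n))
    (h : ∀ k (hk : k + 1 < n), f ⟨k, Nat.lt_of_succ_lt hk⟩ < f ⟨k + 1, hk⟩) : f = 1 := by
  have hmono : StrictMono f := by
    cases n with
    | zero => intro a; exact a.elim0
    | succ m =>
      rw [Fin.strictMono_iff_lt_succ]
      intro i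
      exact h i.1 (by omega)
  let e : Fin n ≃o Fin n := StrictMono.orderIsoOfSurjective f hmono f.surjective
  have h3 : e = OrderIso.refl (Fin n) := Subsingleton.elim _ _
  ext x
  have h4 : e x = f x := rfl
  rw [← h4, h3]
  rfl

theorem exists_adj {n : ℕ} {σ τ : Equiv.Perm (Fin n)} (hw : Weak σ τ) (hne : σ ≠ τ) :
    ∃ k, ∃ hk : k + 1 < n, σ ⟨k, Nat.lt_of_succ_lt hk⟩ < σ ⟨k + 1, hk⟩ ∧
      τ.symm (σ ⟨k + 1, hk⟩) < τ.symm (σ ⟨k, Nat.lt_of_succ_lt hk⟩) := by
  by_contra hno
  push Not at hno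
  apply hne
  have h1 : τ⁻¹ * σ = 1 := by
    apply eq_of_adj
    intro k hk
    have hinj : σ ⟨k, Nat.lt_of_succ_lt hk⟩ ≠ σ ⟨k + 1, hk⟩ := by
      intro h
      have := σ.injective h
      rw [Fin.ext_iff] at this
      simp at this
    have e : ∀ x, (τ⁻¹ * σ) x = τ.symm (σ x) := fun x => rfl
    rw [e, e]
    rcases lt_or_gt_of_ne hinj with h | h
    · have h2 := hno k hk h
      refine lt_of_le_of_ne h2 ?_
      intro h3
      exact hinj (τ.symm.injective h3)
    · apply hw _ _ h
      rw [Equiv.symm_apply_apply, Equiv.symm_apply_apply]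
      rw [Fin.lt_def]
      simp
  have h2 : τ * (τ⁻¹ * σ) = τ := by rw [h1, mul_one]
  rwa [mul_inv_cancel_left] at h2

/-- A pair in the weak order is connected by a sweep; a change of the set of the `k + 1` lowest
pseudolines needs a crossing at `k`. -/
theorem exists_sweep {n : ℕ} (τ : Equiv.Perm (Fin n)) : ∀ (N : ℕ) (σ : Equiv.Perm (Fin n)),
    Weak σ τ → (todo σ τ).card ≤ N →
    ∃ w, Sweep n σ w τ ∧
      ∀ k, (∃ p : Fin n, p.1 ≤ k ∧ k < (τ.symm (σ p)).1) → k ∈ w := by
  intro N
  induction N with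
  | zero =>
    intro σ hw hN
    by_cases hne : σ = τ
    · subst hne
      refine ⟨[], Sweep.nil _, ?_⟩
      rintro k ⟨p, h1, h2⟩
      rw [Equiv.symm_apply_apply] at h2
      omega
    · exfalso
      obtain ⟨k, hk, h1, h2⟩ := exists_adj hw hne
      have : (σ ⟨k, Nat.lt_of_succ_lt hk⟩, σ ⟨k + 1, hk⟩) ∈ todo σ τ := by
        unfold todo
        rw [mem_filter]
        refine ⟨mem_univ _, h1, ?_, h2⟩
        simp only [Equiv.symm_apply_apply]
        rw [Fin.lt_def]
        simp
      have h3 : 0 < (todo σ τ).card := card_pos.2 ⟨_, this⟩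
      omega
  | succ N ih =>
    intro σ hw hN
    by_cases hne : σ = τ
    · subst hne
      refine ⟨[], Sweep.nil _, ?_⟩
      rintro k ⟨p, h1, h2⟩
      rw [Equiv.symm_apply_apply] at h2
      omega
    · obtain ⟨k, hk, h1, h2⟩ := exists_adj hw hne
      set s : Equiv.Perm (Fin n) := Equiv.swap ⟨k, Nat.lt_of_succ_lt hk⟩ ⟨k + 1, hk⟩ with hs
      have hsymm : ∀ x, (σ * s).symm x = s (σ.symm x) := by
        intro x
        rw [Equiv.symm_apply_eq, Equiv.Perm.mul_apply, hs, Equiv.swap_apply_self,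
          Equiv.apply_symm_apply]
      have hw' : Weak (σ * s) τ := by
        intro a b hab h3
        rw [hsymm, hsymm] at h3
        rcases swap_lt hk _ _ h3 with h4 | ⟨h4, h5⟩
        · exact hw a b hab h4
        · rw [Equiv.symm_apply_eq] at h4 h5
          rw [h4, h5]
          exact h2
      have hsub : todo (σ * s) τ ⊂ todo σ τ := by
        rw [ssubset_iff_of_subset]
        · refine ⟨(σ ⟨k, Nat.lt_of_succ_lt hk⟩, σ ⟨k + 1, hk⟩), ?_, ?_⟩
          · unfold todo
            rw [mem_filter]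
            refine ⟨mem_univ _, h1, ?_, h2⟩
            simp only [Equiv.symm_apply_apply]
            rw [Fin.lt_def]
            simp
          · unfold todo
            rw [mem_filter]
            rintro ⟨_, _, h5, _⟩
            rw [hsymm, hsymm] at h5
            simp only [Equiv.symm_apply_apply, hs, Equiv.swap_apply_left,
              Equiv.swap_apply_right] at h5
            rw [Fin.lt_def] at h5
            simp at h5
        · intro z hz
          unfold todo at hz ⊢
          rw [mem_filter] at hz ⊢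
          obtain ⟨_, h4, h5, h6⟩ := hz
          refine ⟨mem_univ _, h4, ?_, h6⟩
          rw [hsymm, hsymm] at h5
          rcases swap_lt hk _ _ h5 with h7 | ⟨h7, h8⟩
          · exact h7
          · exfalso
            rw [Equiv.symm_apply_eq] at h7 h8
            rw [h7, h8] at h4
            exact lt_asymm h1 h4
      obtain ⟨w, hw1, hw2⟩ := ih (σ * s) hw' (by have := card_lt_card hsub; omega)
      refine ⟨k :: w, Sweep.cons hk h1 hw1, ?_⟩
      rintro k' ⟨p, h3, h4⟩
      by_cases hkk : k' = k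
      · rw [hkk]
        exact List.mem_cons_self
      · refine List.mem_cons_of_mem _ (hw2 k' ⟨s p, ?_, ?_⟩)
        · rw [hs, Equiv.swap_apply_def]
          split_ifs with h5 h6
          · rw [h5] at h3
            simp only at h3 ⊢
            omega
          · rw [h6] at h3
            simp only at h3 ⊢
            omega
          · exact h3
        · rw [Equiv.Perm.mul_apply, hs, Equiv.swap_apply_self]
          exact h4

theorem weak_one {n : ℕ} (τ : Equiv.Perm (Fin n)) : Weak 1 τ := by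
  intro a b h1 h2
  exact absurd h2 (lt_asymm h1)

theorem weak_rev {n : ℕ} (σ : Equiv.Perm (Fin n)) : Weak σ Fin.revPerm := by
  intro a b h1 _
  rw [Fin.revPerm_symm]
  exact Fin.rev_lt_rev.2 h1

/-- a chain of events -/
theorem exists_chain {n : ℕ} (k : ℕ) : ∀ (es : List (Equiv.Perm (Fin n) × Equiv.Perm (Fin n)))
    (σ : Equiv.Perm (Fin n)), (∀ e ∈ es, Weak σ e.1) →
    (∀ e ∈ es, Weak e.1 e.2 ∧ ∃ p : Fin n, p.1 ≤ k ∧ k < (e.2.symm (e.1 p)).1) →
    es.Pairwise (fun e e' => Weak e.2 e'.1) →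
    ∃ w, Sweep n σ w Fin.revPerm ∧ es.length ≤ w.count k := by
  intro es
  induction es with
  | nil =>
    intro σ _ _ _
    obtain ⟨w, h1, _⟩ := exists_sweep Fin.revPerm _ σ (weak_rev σ) le_rfl
    exact ⟨w, h1, Nat.zero_le _⟩
  | cons e es ih =>
    intro σ h1 h2 h3
    rw [List.pairwise_cons] at h3
    obtain ⟨w1, hw1, _⟩ := exists_sweep e.1 _ σ (h1 e List.mem_cons_self) le_rfl
    obtain ⟨h4, h5⟩ := h2 e List.mem_cons_self
    obtain ⟨w2, hw2, hk2⟩ := exists_sweep e.2 _ e.1 h4 le_rfl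
    obtain ⟨w3, hw3, hl3⟩ := ih e.2 (fun e' he' => h3.1 e' he')
      (fun e' he' => h2 e' (List.mem_cons_of_mem _ he')) h3.2
    refine ⟨w1 ++ (w2 ++ w3), hw1.append (hw2.append hw3), ?_⟩
    rw [List.count_append, List.count_append, List.length_cons]
    have : 0 < w2.count k := List.count_pos_iff.2 (hk2 k h5)
    omega

/-! ### Reflection -/

theorem sweep_rev {n : ℕ} {σ τ : Equiv.Perm (Fin n)} {w : List ℕ} (h : Sweep n σ w τ) :
    Sweep n (Fin.revPerm * σ * Fin.revPerm) (w.map (fun k => n - 2 - k))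
      (Fin.revPerm * τ * Fin.revPerm) := by
  induction h with
  | nil σ => exact Sweep.nil _
  | @cons σ τ k w hk h hw ih =>
    rw [List.map_cons]
    have hk' : (n - 2 - k) + 1 < n := by omega
    have e1 : (⟨n - 2 - k, Nat.lt_of_succ_lt hk'⟩ : Fin n) = Fin.revPerm ⟨k + 1, hk⟩ := by
      apply Fin.ext
      rw [Fin.revPerm_apply, Fin.val_rev]
      simp only
      omega
    have e2 : (⟨n - 2 - k + 1, hk'⟩ : Fin n) = Fin.revPerm ⟨k, Nat.lt_of_succ_lt hk⟩ := by
      apply Fin.ext
      rw [Fin.revPerm_apply, Fin.val_rev]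
      simp only
      omega
    have hrr : ∀ x : Fin n, (Fin.revPerm : Equiv.Perm (Fin n)) (Fin.revPerm x) = x := by
      intro x
      rw [Fin.revPerm_apply, Fin.revPerm_apply, Fin.rev_rev]
    refine Sweep.cons hk' ?_ ?_
    · rw [e1, e2]
      simp only [Equiv.Perm.mul_apply, hrr]
      rw [Fin.revPerm_apply, Fin.revPerm_apply]
      exact Fin.rev_lt_rev.2 h
    · rw [e1, e2]
      have e3 : (Fin.revPerm * σ * Fin.revPerm : Equiv.Perm (Fin n))
          * Equiv.swap (Fin.revPerm ⟨k + 1, hk⟩) (Fin.revPerm ⟨k, Nat.lt_of_succ_lt hk⟩)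
          = Fin.revPerm * (σ * Equiv.swap ⟨k, Nat.lt_of_succ_lt hk⟩ ⟨k + 1, hk⟩)
            * Fin.revPerm := by
        ext x
        simp only [Equiv.Perm.mul_apply]
        have : Fin.revPerm (Equiv.swap (Fin.revPerm ⟨k + 1, hk⟩)
              (Fin.revPerm ⟨k, Nat.lt_of_succ_lt hk⟩) x)
            = Equiv.swap ⟨k, Nat.lt_of_succ_lt hk⟩ ⟨k + 1, hk⟩ (Fin.revPerm x) := by
          have h7 : Fin.revPerm x = Fin.revPerm x := rfl
          rw [Function.Injective.map_swap (Fin.revPerm (n := n)).injective, hrr, hrr,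
            Equiv.swap_comm]
        rw [this]
      rw [e3]
      exact ih

end Pool.Agent.PLevel
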